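import Pool.Agent.Q239.LV.Lev

/-!
# Montgomery's large values conjecture is a statement on pairs of sets of integers

Q1 asks for `∑_{t ∈ S} |∑_{n ≤ N} a_n n^{it}|² ≤ C_ε N^ε (N + |S|) N` for all coefficients `|a_n| ≤ 1` and
all `1`-separated sets `S ⊂ [0, T]` of real numbers, `T ≤ N²`, of any size. It is equivalent to

* `|∑_{n ∈ A} ∑_{t ∈ W} n^{it}| ≤ C_ε N^(3/2 + ε)` for all sets `A ⊂ [1, N]` and `W ⊂ [0, N²]` of
  integers, `|W| ≤ N`;
* `∑_{n ≤ N} |∑_{t ∈ W} n^{it}| ≤ C_ε N^(1 + ε) |W|^(1/2)` for all such `W`.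

There are no coefficients, only integer points, and for the first statement only the quality needed
for the largest sets `W` (with `N` elements).
-/

set_option autoImplicit false

open Finset

namespace Pool.Agent.Results.MP_71ac24_nt.PairsOfSets

/-- the Dirichlet polynomial `∑_{n ≤ N} a_n n^{it}` -/
noncomputable def poly (N : ℕ) (a : ℕ → ℂ) (t : ℝ) : ℂ :=
  ∑ n ∈ Finset.Icc 1 N, a n * Complex.exp (Complex.I * (t : ℂ) * (Real.log (n : ℝ) : ℂ))

/-- the statement of Q1 -/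
def Montgomery : Prop :=
  ∀ ε : ℝ, 0 < ε → ∃ C : ℝ, 0 < C ∧
    ∀ N : ℕ, 1 ≤ N → ∀ T : ℝ, T ≤ (N : ℝ) ^ 2 → ∀ a : ℕ → ℂ, (∀ n, ‖a n‖ ≤ 1) →
      ∀ S : Finset ℝ, (∀ t ∈ S, 0 ≤ t ∧ t ≤ T) → (∀ t ∈ S, ∀ u ∈ S, t ≠ u → 1 ≤ |t - u|) →
        ∑ t ∈ S, ‖poly N a t‖ ^ 2 ≤ C * (N : ℝ) ^ ε * ((N : ℝ) + (S.card : ℝ)) * (N : ℝ)

/-- the double sums of `n^{it}` over all pairs of sets of integers `A ⊂ [1, N]` and
`W ⊂ [0, N²]`, `|W| ≤ N`, are at most `C_ε N^(3/2 + ε)` -/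
def Pairs : Prop :=
  ∀ ε : ℝ, 0 < ε → ∃ C : ℝ, 0 < C ∧
    ∀ N : ℕ, 1 ≤ N → ∀ A W : Finset ℕ, (∀ n ∈ A, 1 ≤ n ∧ n ≤ N) → (∀ t ∈ W, t ≤ N ^ 2) →
      W.card ≤ N →
        ‖∑ n ∈ A, ∑ t ∈ W, Complex.exp (Complex.I * (t : ℂ) * (Real.log (n : ℝ) : ℂ))‖ ≤
          C * (N : ℝ) ^ (3 / 2 + ε)

/-- the mean over `n ≤ N` of the absolute values of the sums of `n^{it}` over sets `W ⊂ [0, N²]` of
at most `N` integers is at most `C_ε N^ε |W|^(1/2)` -/
def Means : Prop :=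
  ∀ ε : ℝ, 0 < ε → ∃ C : ℝ, 0 < C ∧
    ∀ N : ℕ, 1 ≤ N → ∀ W : Finset ℕ, (∀ t ∈ W, t ≤ N ^ 2) → W.card ≤ N →
      ∑ n ∈ Finset.Icc 1 N, ‖∑ t ∈ W, Complex.exp (Complex.I * (t : ℂ) * (Real.log (n : ℝ) : ℂ))‖ ≤
        C * (N : ℝ) ^ (1 + ε) * Real.sqrt W.card

open Pool.Agent.Q239.LV

lemma ker_eq (l t : ℝ) : ker l t = Complex.exp (Complex.I * (t : ℂ) * (l : ℂ)) := by
  unfold ker
  congr 1
  push_cast
  ring

lemma normSq_ker (l t : ℝ) : Complex.normSq (ker l t) = 1 := by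
  rw [Complex.normSq_eq_norm_sq, norm_ker, one_pow]

lemma means_of_montgomery (H : Montgomery) : Means := by
  intro ε hε
  obtain ⟨C, hC, h⟩ := H (2 * ε) (by linarith)
  refine ⟨Real.sqrt (2 * C), Real.sqrt_pos.2 (by linarith), ?_⟩
  intro N hN W hW hc
  have hN1 : (1 : ℝ) ≤ N := by exact_mod_cast hN
  have hN0 : (0 : ℝ) < N := by linarith
  classical
  have h1 := sum_norm_poly_le W (Finset.Icc 1 N)
    (fun t n => Complex.exp (Complex.I * ((t : ℕ) : ℂ) * (Real.log (n : ℝ) : ℂ)))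
    (Real.sqrt (2 * C) * (N : ℝ) ^ (1 + ε) * Real.sqrt W.card) ?_
  · exact h1
  intro u hu
  have h2 := h N hN ((N : ℝ) ^ 2) le_rfl u hu (W.image (fun t : ℕ => (t : ℝ))) (by
    intro t ht
    rw [Finset.mem_image] at ht
    obtain ⟨m, hm, rfl⟩ := ht
    exact ⟨Nat.cast_nonneg m, by exact_mod_cast hW m hm⟩) (by
    intro t ht t' ht' hne
    rw [Finset.mem_image] at ht ht'
    obtain ⟨m, _, rfl⟩ := ht
    obtain ⟨m', _, rfl⟩ := ht'
    have h3 : (m : ℤ) ≠ m' := fun h => hne (by exact_mod_cast h)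
    have h4 : (1 : ℤ) ≤ |(m : ℤ) - m'| := Int.one_le_abs (sub_ne_zero.2 h3)
    exact_mod_cast h4)
  rw [Finset.sum_image (fun a _ b _ hab => by exact_mod_cast hab),
    Finset.card_image_of_injective _ Nat.cast_injective] at h2
  have h3 : ∑ n ∈ Finset.Icc 1 N, u n *
      ∑ t ∈ W, Complex.exp (Complex.I * ((t : ℕ) : ℂ) * (Real.log (n : ℝ) : ℂ)) =
      ∑ t ∈ W, poly N u (t : ℝ) := by
    unfold poly
    simp_rw [Finset.mul_sum]
    rw [Finset.sum_comm]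
    simp
  rw [h3]
  have hcr : (W.card : ℝ) ≤ N := by exact_mod_cast hc
  have h4 : (∑ t ∈ W, ‖poly N u (t : ℝ)‖) ^ 2 ≤ W.card * (C * (N : ℝ) ^ (2 * ε) * (2 * N) * N) := by
    refine (sq_sum_le_card_mul_sum_sq).trans (mul_le_mul_of_nonneg_left (h2.trans ?_) (by positivity))
    gcongr
    linarith
  have h5 : (Real.sqrt (2 * C) * (N : ℝ) ^ (1 + ε) * Real.sqrt W.card) ^ 2 =
      W.card * (C * (N : ℝ) ^ (2 * ε) * (2 * N) * N) := by
    rw [mul_pow, mul_pow, Real.sq_sqrt (by linarith), Real.sq_sqrt (by positivity),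
      ← Real.rpow_natCast, ← Real.rpow_mul hN0.le,
      show (1 + ε) * ((2 : ℕ) : ℝ) = 2 * ε + 1 + 1 by push_cast; ring, Real.rpow_add hN0,
      Real.rpow_add hN0, Real.rpow_one]
    ring
  calc ‖∑ t ∈ W, poly N u (t : ℝ)‖ ≤ ∑ t ∈ W, ‖poly N u (t : ℝ)‖ := norm_sum_le _ _
    _ ≤ _ := by
        refine abs_le_of_sq_le_sq' (by rw [h5]; exact h4) (by positivity) |>.2

lemma pairs_of_means (H : Means) : Pairs := by
  intro ε hε
  obtain ⟨C, hC, h⟩ := H ε hε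
  refine ⟨C, hC, ?_⟩
  intro N hN A W hA hW hc
  have hN0 : (0 : ℝ) < N := by exact_mod_cast hN
  calc ‖∑ n ∈ A, ∑ t ∈ W, Complex.exp (Complex.I * (t : ℂ) * (Real.log (n : ℝ) : ℂ))‖ ≤
        ∑ n ∈ A, ‖∑ t ∈ W, Complex.exp (Complex.I * (t : ℂ) * (Real.log (n : ℝ) : ℂ))‖ :=
        norm_sum_le _ _
    _ ≤ ∑ n ∈ Finset.Icc 1 N,
        ‖∑ t ∈ W, Complex.exp (Complex.I * (t : ℂ) * (Real.log (n : ℝ) : ℂ))‖ :=
        Finset.sum_le_sum_of_subset_of_nonneg (fun n hn => Finset.mem_Icc.2 (hA n hn))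
          (fun _ _ _ => norm_nonneg _)
    _ ≤ C * (N : ℝ) ^ (1 + ε) * Real.sqrt W.card := h N hN W hW hc
    _ ≤ C * (N : ℝ) ^ (1 + ε) * Real.sqrt N := by
        refine mul_le_mul_of_nonneg_left (Real.sqrt_le_sqrt ?_) (by positivity)
        exact_mod_cast hc
    _ = C * (N : ℝ) ^ (3 / 2 + ε) := by
        rw [Real.sqrt_eq_rpow, mul_assoc, ← Real.rpow_add hN0]
        congr 2
        ring

lemma montgomery_of_pairs (H : Pairs) : Montgomery := by
  intro ε hε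
  obtain ⟨C, hC, h⟩ := H (ε / 4) (by linarith)
  set δ := ε / 6 with hδ
  have hδ0 : 0 < δ := by positivity
  refine ⟨1344 ^ 2 * C ^ 2 * (2 + 1 / δ) ^ 3, by positivity, ?_⟩
  intro N hN T hT a ha S hS hsep
  classical
  have hN1 : (1 : ℝ) ≤ N := by exact_mod_cast hN
  have hN0 : (0 : ℝ) < N := by linarith
  have hlog : 0 ≤ Real.log N := Real.log_nonneg hN1
  set β := C * (N : ℝ) ^ (3 / 2 + ε / 4) with hβ
  have hβ0 : 0 < β := by positivity
  set e : ℕ → ℤ → ℂ := fun n t => ker (Real.log n) (t : ℝ) with he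
  have hh : ∀ A ⊆ Finset.Icc 1 N, ∀ W : Finset ℤ, (∀ t ∈ W, 0 ≤ t ∧ t ≤ ((N ^ 2 : ℕ) : ℤ)) →
      W.card ≤ N → ‖∑ n ∈ A, ∑ t ∈ W, e n t‖ ≤ β := by
    intro A hA W hW hc
    have h1 := h N hN A (W.image Int.toNat) (fun n hn => Finset.mem_Icc.1 (hA hn)) (by
      intro t ht
      rw [Finset.mem_image] at ht
      obtain ⟨x, hx, rfl⟩ := ht
      have := (hW x hx).2
      omega) (Finset.card_image_le.trans hc)
    refine le_trans (le_of_eq ?_) h1
    congr 1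
    refine Finset.sum_congr rfl fun n _ => ?_
    rw [Finset.sum_image (fun x hx y hy hxy => by
      have h2 := (hW x hx).1
      have h3 := (hW y hy).1
      omega)]
    refine Finset.sum_congr rfl fun t ht => ?_
    rw [he]
    dsimp only
    rw [ker_eq]
    have h2 : ((t.toNat : ℕ) : ℤ) = t := Int.toNat_of_nonneg (hW t ht).1
    have h3 : ((t.toNat : ℕ) : ℂ) = ((t : ℝ) : ℂ) := by
      rw [← Int.cast_natCast (R := ℂ), h2]
      push_cast
      rfl
    rw [h3]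
  set γ := (2 + Real.log N) * (1344 * C * (N : ℝ) ^ (1 + ε / 4)) with hγ
  have hclaim : ∀ S' ⊆ S, S'.card ≤ N → ∑ t ∈ S', ‖poly N a t‖ ≤ γ * Real.sqrt S'.card := by
    intro S' hS' hc
    have h1 := sum_norm_poly_le (Finset.Icc 1 N) S' (fun n t => a n * ker (Real.log (n : ℝ)) t)
      ((2 + Real.log N) * (1344 * β * Real.sqrt (S'.card / N))) (by
        intro u hu
        refine real_to_int (Finset.Icc 1 N) (fun n : ℕ => Real.log n) (Real.log N) ?_ hlog S' _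
          ?_ a u ha hu
        · intro n hn
          rw [Finset.mem_Icc] at hn
          have : (1 : ℝ) ≤ n := by exact_mod_cast hn.1
          rw [abs_of_nonneg (Real.log_nonneg this)]
          exact Real.log_le_log (by linarith) (by exact_mod_cast hn.2)
        · intro a' u' ha' hu'
          have h2 := bil_bound (Finset.Icc 1 N) e (fun n x y => by
            rw [he]; dsimp only; push_cast; exact ker_add _ _ _)
            (fun n x => normSq_ker _ _) N (N ^ 2) hN le_rfl β hh S' (fun t => ⌊t⌋) (by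
              intro x hx y hy hxy
              by_contra hne
              have h3 := hsep x (hS' hx) y (hS' hy) hne
              exact absurd (Int.abs_sub_lt_one_of_floor_eq_floor hxy) (not_lt.2 h3)) (by
              intro t ht
              have h3 := hS t (hS' ht)
              refine ⟨Int.floor_nonneg.2 h3.1, ?_⟩
              have h4 : t ≤ ((N ^ 2 : ℕ) : ℝ) := by push_cast; linarith [h3.2]
              have h5 : (⌊t⌋ : ℝ) ≤ ((N ^ 2 : ℕ) : ℝ) := (Int.floor_le t).trans h4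
              exact_mod_cast h5) hc u' hu'
          refine le_trans ?_ h2
          have h6 : ∑ t ∈ S', u' t * ∑ n ∈ Finset.Icc 1 N, a' n * ker (Real.log (n : ℝ)) (⌊t⌋ : ℝ) =
              ∑ n ∈ Finset.Icc 1 N, a' n * ∑ t ∈ S', u' t * e n ⌊t⌋ := by
            simp_rw [Finset.mul_sum]
            rw [Finset.sum_comm]
            refine Finset.sum_congr rfl fun n _ => Finset.sum_congr rfl fun t _ => ?_
            rw [he]
            ring
          rw [h6]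
          refine (norm_sum_le _ _).trans (Finset.sum_le_sum fun n _ => ?_)
          rw [norm_mul]
          exact mul_le_of_le_one_left (norm_nonneg _) (ha' n))
    have h2 : ∑ t ∈ S', ‖poly N a t‖ = ∑ t ∈ S', ‖∑ n ∈ Finset.Icc 1 N, a n * ker (Real.log (n : ℝ)) t‖ := by
      refine Finset.sum_congr rfl fun t _ => ?_
      unfold poly
      congr 1
      refine Finset.sum_congr rfl fun n _ => ?_
      rw [ker_eq]
    rw [h2]
    refine h1.trans (le_of_eq ?_)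
    rw [hγ, hβ, Real.sqrt_div (Nat.cast_nonneg _)]
    have h3 : (N : ℝ) ^ (3 / 2 + ε / 4) = (N : ℝ) ^ (1 + ε / 4) * Real.sqrt N := by
      rw [Real.sqrt_eq_rpow, ← Real.rpow_add hN0]
      congr 1
      ring
    have h4 : 0 < Real.sqrt N := Real.sqrt_pos.2 hN0
    rw [h3]
    field_simp
  have h1 := sq_sum_le (fun t => ‖poly N a t‖) (fun t => norm_nonneg _) γ N hN S.card S rfl hclaim
  have h2 := harm_le N S.card
  have hlogδ : Real.log N ≤ (N : ℝ) ^ δ / δ := Real.log_le_rpow_div hN0.le hδ0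
  have hNδ : 1 ≤ (N : ℝ) ^ δ := Real.one_le_rpow hN1 hδ0.le
  have h3 : 2 + Real.log N ≤ (2 + 1 / δ) * (N : ℝ) ^ δ := by
    calc 2 + Real.log N ≤ 2 * (N : ℝ) ^ δ + (N : ℝ) ^ δ / δ := by linarith
      _ = _ := by ring
  have h4 : 1 + Real.log N + (S.card : ℝ) / N ≤ (2 + Real.log N) * ((N + S.card) / N) := by
    have h5 : ((N : ℝ) + S.card) / N = 1 + S.card / N := by field_simp
    rw [h5]
    have h6 : (0 : ℝ) ≤ S.card / N := by positivity
    nlinarith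
  calc ∑ t ∈ S, ‖poly N a t‖ ^ 2 ≤ γ ^ 2 * ((2 + Real.log N) * ((N + S.card) / N)) :=
        h1.trans (mul_le_mul_of_nonneg_left (h2.trans h4) (sq_nonneg _))
    _ = 1344 ^ 2 * C ^ 2 * (2 + Real.log N) ^ 3 * ((N : ℝ) ^ (1 + ε / 4)) ^ 2 *
        ((N + S.card) / N) := by rw [hγ]; ring
    _ ≤ 1344 ^ 2 * C ^ 2 * ((2 + 1 / δ) * (N : ℝ) ^ δ) ^ 3 * ((N : ℝ) ^ (1 + ε / 4)) ^ 2 *
        ((N + S.card) / N) := by gcongr
    _ = 1344 ^ 2 * C ^ 2 * (2 + 1 / δ) ^ 3 * (N : ℝ) ^ ε * ((N : ℝ) + (S.card : ℝ)) * (N : ℝ) := by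
        have h7 : ((N : ℝ) ^ δ) ^ 3 * ((N : ℝ) ^ (1 + ε / 4)) ^ 2 = (N : ℝ) ^ ε * N * N := by
          rw [← Real.rpow_natCast, ← Real.rpow_natCast, ← Real.rpow_mul hN0.le,
            ← Real.rpow_mul hN0.le, ← Real.rpow_add hN0]
          have : δ * ((3 : ℕ) : ℝ) + (1 + ε / 4) * ((2 : ℕ) : ℝ) = ε + 1 + 1 := by
            rw [hδ]; push_cast; ring
          rw [this, Real.rpow_add hN0, Real.rpow_add hN0, Real.rpow_one]
        calc _ = 1344 ^ 2 * C ^ 2 * (2 + 1 / δ) ^ 3 * (((N : ℝ) ^ δ) ^ 3 *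
              ((N : ℝ) ^ (1 + ε / 4)) ^ 2) * ((N + S.card) / N) := by ring
          _ = _ := by
              rw [h7]
              field_simp

/-- **Montgomery's large values conjecture (Q1) holds if and only if
`|∑_{n ∈ A} ∑_{t ∈ W} n^{it}| ≤ C_ε N^(3/2 + ε)` for all sets `A ⊂ [1, N]`, `W ⊂ [0, N²]` of integers
with `|W| ≤ N`, and if and only if `∑_{n ≤ N} |∑_{t ∈ W} n^{it}| ≤ C_ε N^(1 + ε) |W|^(1/2)` for all
such `W`.** -/
theorem result : List.TFAE [Montgomery, Pairs, Means] := by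
  tfae_have 1 → 3 := means_of_montgomery
  tfae_have 3 → 2 := pairs_of_means
  tfae_have 2 → 1 := montgomery_of_pairs
  tfae_finish

end Pool.Agent.Results.MP_71ac24_nt.PairsOfSets
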