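import Pool.Agent.Q239.LV.Blk
import Pool.Agent.Results.MP_71ac24_nt.PairsOfSets

/-!
# Montgomery's large values conjecture: `N/45` instead of `N^(1-2δ+ε)` large values

The inequality of Q1 implies that a Dirichlet polynomial `D(t) = ∑_{n ≤ N} a_n n^{it}`, `|a_n| ≤ 1`, has
at most `C N^(1 - 2δ + ε)` values `|D(t)| > N^(1/2 + δ)` at integers `t ∈ [0, N²]`. Conversely it is
enough to know that there are, for every `δ > 0` and all large `N`, at most `N/45` such values.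
-/

set_option autoImplicit false

open Finset

namespace Pool.Agent.Results.MP_71ac24_nt.FewLargeValues

/-- the Dirichlet polynomial `∑_{n ≤ N} a_n n^{it}` -/
noncomputable def poly (N : ℕ) (a : ℕ → ℂ) (t : ℝ) : ℂ :=
  ∑ n ∈ Finset.Icc 1 N, a n * Complex.exp (Complex.I * (t : ℂ) * (Real.log (n : ℝ) : ℂ))

/-- the statement of Q1 -/
def Montgomery : Prop :=
  ∀ ε : ℝ, 0 < ε → ∃ C : ℝ, 0 < C ∧
    ∀ N : ℕ, 1 ≤ N → ∀ T : ℝ, T ≤ (N : ℝ) ^ 2 → ∀ a : ℕ → ℂ, (∀ n, ‖a n‖ ≤ 1) →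
      ∀ S : Finset ℝ, (∀ t ∈ S, 0 ≤ t ∧ t ≤ T) → (∀ t ∈ S, ∀ u ∈ S, t ≠ u → 1 ≤ |t - u|) →
        ∑ t ∈ S, ‖poly N a t‖ ^ 2 ≤ C * (N : ℝ) ^ ε * ((N : ℝ) + (S.card : ℝ)) * (N : ℝ)

/-- for every `δ > 0` and all large `N` every `D` has at most `N/45` values `|D(t)| > N^(1/2 + δ)` at
integers `t ∈ [0, N²]` -/
def FewLarge : Prop :=
  ∀ δ : ℝ, 0 < δ → ∃ N₀ : ℕ, ∀ N : ℕ, N₀ ≤ N → ∀ a : ℕ → ℂ, (∀ n, ‖a n‖ ≤ 1) →
    ∀ W : Finset ℕ, (∀ t ∈ W, t ≤ N ^ 2 ∧ (N : ℝ) ^ (1 / 2 + δ) < ‖poly N a (t : ℝ)‖) →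
      45 * W.card ≤ N

open Pool.Agent.Q239.LV

lemma few_of_montgomery (H : Montgomery) : FewLarge := by
  intro δ hδ
  obtain ⟨C, hC, h⟩ := H δ hδ
  obtain ⟨N₀, hN₀⟩ := exists_nat_gt ((92 * C) ^ (1 / δ))
  refine ⟨max N₀ 1, fun N hN a ha W hW => ?_⟩
  have hN1' : 1 ≤ N := le_trans (le_max_right _ _) hN
  have hN1 : (1 : ℝ) ≤ N := by exact_mod_cast hN1'
  have hN0 : (0 : ℝ) < N := by linarith
  -- `N^δ > 92 C`
  have hNδ : 92 * C < (N : ℝ) ^ δ := by
    have h1 : (92 * C) ^ (1 / δ) < N :=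
      hN₀.trans_le (by exact_mod_cast le_trans (le_max_left _ _) hN)
    calc 92 * C = ((92 * C) ^ (1 / δ)) ^ δ := by
          rw [← Real.rpow_mul (by positivity), one_div_mul_cancel hδ.ne', Real.rpow_one]
      _ < (N : ℝ) ^ δ := Real.rpow_lt_rpow (by positivity) h1 hδ
  -- subsets with at most `N` elements
  by_contra hcon
  push Not at hcon
  obtain ⟨W', hW', hc'⟩ : ∃ W' ⊆ W, (N < 45 * W'.card ∧ W'.card ≤ N) := by
    by_cases h1 : W.card ≤ N
    · exact ⟨W, subset_rfl, hcon, h1⟩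
    · push Not at h1
      obtain ⟨W', h2, h3⟩ := Finset.exists_subset_card_eq h1.le
      exact ⟨W', h2, by omega, h3.le⟩
  have h1 := h N hN1' ((N : ℝ) ^ 2) le_rfl a ha (W'.image (fun t : ℕ => (t : ℝ))) (by
    intro t ht
    rw [Finset.mem_image] at ht
    obtain ⟨m, hm, rfl⟩ := ht
    exact ⟨Nat.cast_nonneg m, by exact_mod_cast (hW m (hW' hm)).1⟩) (by
    intro t ht t' ht' hne
    rw [Finset.mem_image] at ht ht'
    obtain ⟨m, _, rfl⟩ := ht
    obtain ⟨m', _, rfl⟩ := ht'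
    have h3 : (m : ℤ) ≠ m' := fun h => hne (by exact_mod_cast h)
    have h4 : (1 : ℤ) ≤ |(m : ℤ) - m'| := Int.one_le_abs (sub_ne_zero.2 h3)
    exact_mod_cast h4)
  rw [Finset.sum_image (fun a _ b _ hab => by exact_mod_cast hab),
    Finset.card_image_of_injective _ Nat.cast_injective] at h1
  have h2 : (W'.card : ℝ) * (N * ((N : ℝ) ^ δ * (N : ℝ) ^ δ)) ≤ ∑ t ∈ W', ‖poly N a (t : ℝ)‖ ^ 2 := by
    have h3 : ∀ t ∈ W', (N : ℝ) * ((N : ℝ) ^ δ * (N : ℝ) ^ δ) ≤ ‖poly N a (t : ℝ)‖ ^ 2 := by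
      intro t ht
      have h4 := (hW t (hW' ht)).2.le
      calc (N : ℝ) * ((N : ℝ) ^ δ * (N : ℝ) ^ δ) = ((N : ℝ) ^ (1 / 2 + δ)) ^ 2 := by
            rw [← Real.rpow_natCast ((N : ℝ) ^ (1 / 2 + δ)) 2, ← Real.rpow_mul hN0.le,
              ← Real.rpow_add hN0]
            conv_lhs => rw [← Real.rpow_one (N : ℝ)]
            rw [Real.rpow_one (N : ℝ), ← Real.rpow_one_add' hN0.le (by positivity)]
            congr 1
            push_cast
            ring
        _ ≤ _ := pow_le_pow_left₀ (by positivity) h4 2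
    have := Finset.card_nsmul_le_sum W' (fun t => ‖poly N a (t : ℝ)‖ ^ 2) _ h3
    simpa using this
  have hc2 : (W'.card : ℝ) ≤ N := by exact_mod_cast hc'.2
  have hc1 : (N : ℝ) < 45 * W'.card := by exact_mod_cast hc'.1
  have hδ0 : 0 < (N : ℝ) ^ δ := by positivity
  have h3 : (W'.card : ℝ) * (N * ((N : ℝ) ^ δ * (N : ℝ) ^ δ)) ≤ C * (N : ℝ) ^ δ * (2 * N) * N := by
    refine h2.trans (h1.trans ?_)
    gcongr
    linarith
  have h4 : (W'.card : ℝ) * (N : ℝ) ^ δ ≤ 2 * C * N := by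
    have h5 : (W'.card : ℝ) * (N : ℝ) ^ δ * (N * (N : ℝ) ^ δ) ≤ 2 * C * N * (N * (N : ℝ) ^ δ) := by
      calc _ = (W'.card : ℝ) * (N * ((N : ℝ) ^ δ * (N : ℝ) ^ δ)) := by ring
        _ ≤ _ := h3
        _ = _ := by ring
    exact le_of_mul_le_mul_right h5 (by positivity)
  have h5 : (N : ℝ) * (92 * C) ≤ 45 * (2 * C * N) := by
    calc (N : ℝ) * (92 * C) ≤ (45 * W'.card) * (N : ℝ) ^ δ :=
          mul_le_mul hc1.le hNδ.le (by positivity) (by positivity)
      _ = 45 * (W'.card * (N : ℝ) ^ δ) := by ring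
      _ ≤ _ := by linarith
  have h6 : 0 < C * N := by positivity
  nlinarith

lemma pairs_of_few (H : FewLarge) : PairsOfSets.Pairs := by
  classical
  intro ε hε
  obtain ⟨N₀, h⟩ := H ε hε
  refine ⟨1 + 4 * 10 ^ 13 + (max N₀ 45 : ℕ) ^ 2, by positivity, ?_⟩
  intro N hN A W hA hW hc
  have hN1 : (1 : ℝ) ≤ N := by exact_mod_cast hN
  have hN0 : (0 : ℝ) < N := by linarith
  have hcr : (W.card : ℝ) ≤ N := by exact_mod_cast hc
  have hNp : 1 ≤ (N : ℝ) ^ (3 / 2 + ε) := Real.one_le_rpow hN1 (by linarith)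
  have hAs : A ⊆ Icc 1 N := fun n hn => Finset.mem_Icc.2 (hA n hn)
  by_cases hsm : N < max N₀ 45
  · -- small `N`
    have h1 : ‖∑ n ∈ A, ∑ t ∈ W, Complex.exp (Complex.I * (t : ℂ) * (Real.log (n : ℝ) : ℂ))‖ ≤
        A.card * W.card := by
      refine (norm_sum_le _ _).trans ?_
      have h2 : ∀ n ∈ A, ‖∑ t ∈ W, Complex.exp (Complex.I * (t : ℂ) * (Real.log (n : ℝ) : ℂ))‖ ≤
          W.card := by
        intro n _
        refine (norm_sum_le _ _).trans ?_
        have h3 : ∀ t ∈ W, ‖Complex.exp (Complex.I * (t : ℂ) * (Real.log (n : ℝ) : ℂ))‖ = 1 := by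
          intro t _
          rw [show Complex.I * (t : ℂ) * (Real.log (n : ℝ) : ℂ) =
            (((t : ℝ) * Real.log (n : ℝ) : ℝ) : ℂ) * Complex.I by push_cast; ring]
          exact Complex.norm_exp_ofReal_mul_I _
        rw [Finset.sum_congr rfl h3, Finset.sum_const, nsmul_eq_mul, mul_one]
      refine (Finset.sum_le_sum h2).trans (le_of_eq ?_)
      rw [Finset.sum_const, nsmul_eq_mul]
    have h2 : (A.card : ℝ) ≤ N := by
      have := Finset.card_le_card hAs
      rw [Nat.card_Icc] at this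
      exact_mod_cast (by omega : A.card ≤ N)
    have h3 : (N : ℝ) ≤ (max N₀ 45 : ℕ) := by exact_mod_cast hsm.le
    calc _ ≤ (A.card : ℝ) * W.card := h1
      _ ≤ N * N := by gcongr
      _ ≤ ((max N₀ 45 : ℕ) : ℝ) * ((max N₀ 45 : ℕ) : ℝ) := by gcongr
      _ = ((max N₀ 45 : ℕ) : ℝ) ^ 2 * 1 := by ring
      _ ≤ ((max N₀ 45 : ℕ) : ℝ) ^ 2 * (N : ℝ) ^ (3 / 2 + ε) := by gcongr
      _ ≤ (1 + 4 * 10 ^ 13 + ((max N₀ 45 : ℕ) : ℝ) ^ 2) * (N : ℝ) ^ (3 / 2 + ε) := by
          refine mul_le_mul_of_nonneg_right ?_ (by linarith)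
          norm_num
  · push Not at hsm
    have hN45 : 45 ≤ N := le_trans (le_max_right _ _) hsm
    have hNN : N₀ ≤ N := le_trans (le_max_left _ _) hsm
    set M := N / 45 with hM
    have hM1 : 1 ≤ M := by omega
    have hMN : 45 * M ≤ N := Nat.mul_div_le N 45
    have hbig : 2000 * M ^ 2 ≤ N ^ 2 := by nlinarith
    set lam := (N : ℝ) ^ (1 / 2 + ε) with hlam
    have hlam0 : 0 < lam := by positivity
    have hkerI : ∀ (n : ℕ) (t : ℝ), Complex.exp (Complex.I * (t : ℂ) * (Real.log (n : ℝ) : ℂ)) =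
        ker (Real.log (n : ℝ)) t := by
      intro n t
      unfold ker
      congr 1
      push_cast
      ring
    have hweak : ∀ b : ℕ → ℂ, (∀ n, ‖b n‖ ≤ 1) → ∀ W : Finset ℤ,
        (∀ t ∈ W, 0 ≤ t ∧ t ≤ ((N ^ 2 : ℕ) : ℤ) ∧
          lam < ‖∑ n ∈ Icc 1 N, b n * ker (Real.log (n : ℝ)) (t : ℝ)‖) → W.card ≤ M := by
      intro b hb W hW
      have h1 := h N hNN b hb (W.image Int.toNat) (by
        intro t ht
        rw [Finset.mem_image] at ht
        obtain ⟨x, hx, rfl⟩ := ht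
        have h2 := hW x hx
        refine ⟨by omega, ?_⟩
        have h3 : ((x.toNat : ℕ) : ℝ) = (x : ℝ) := by
          rw [← Int.cast_natCast, Int.toNat_of_nonneg h2.1]
        rw [h3]
        unfold poly
        simp_rw [hkerI]
        exact h2.2.2)
      have h2 : (W.image Int.toNat).card = W.card := by
        refine Finset.card_image_of_injOn fun x hx y hy hxy => ?_
        have h3 := (hW x hx).1
        have h4 := (hW y hy).1
        omega
      rw [h2] at h1
      omega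
    have hprop := propagate (Icc 1 N) (fun n t => ker (Real.log (n : ℝ)) (t : ℝ))
      (fun n a b => by rw [Int.cast_add, ker_add])
      (fun n a => by rw [Complex.normSq_eq_norm_sq, norm_ker, one_pow])
      (N ^ 2) M hM1 hbig lam hlam0.le hweak
      (fun n => if n ∈ A then 1 else 0) (fun n => by split_ifs <;> simp)
    have hD : ∀ t : ℝ, ∑ n ∈ Icc 1 N, (if n ∈ A then (1 : ℂ) else 0) * ker (Real.log (n : ℝ)) t =
        ∑ n ∈ A, ker (Real.log (n : ℝ)) t := by
      intro t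
      simp_rw [ite_mul, one_mul, zero_mul]
      rw [← Finset.sum_filter, Finset.filter_mem_eq_inter, Finset.inter_eq_right.2 hAs]
    set x : ℕ → ℝ := fun t => ‖∑ n ∈ A, ker (Real.log (n : ℝ)) (t : ℝ)‖ with hx
    set X := (10 : ℝ) ^ 13 * M * lam ^ 2 with hX
    -- at the level `lam` itself
    have hlev : ∀ v : ℝ, lam ≤ v → ((W.filter (fun t => v < x t)).card : ℝ) * v ^ 2 ≤ X := by
      intro v hv
      rcases hv.eq_or_lt with hv | hv
      · rw [← hv]
        have h1 := hweak (fun n => if n ∈ A then 1 else 0) (fun n => by split_ifs <;> simp)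
          ((W.filter (fun t => v < x t)).image (fun t : ℕ => (t : ℤ))) (by
            intro t ht
            rw [Finset.mem_image] at ht
            obtain ⟨m, hm, rfl⟩ := ht
            rw [Finset.mem_filter] at hm
            refine ⟨Int.natCast_nonneg m, by exact_mod_cast hW m hm.1, ?_⟩
            rw [hD, hv]
            exact_mod_cast hm.2)
        rw [Finset.card_image_of_injective _ Nat.cast_injective, ← hv] at h1
        have h2 : ((W.filter (fun t => lam < x t)).card : ℝ) ≤ M := by exact_mod_cast h1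
        rw [hX]
        have h3 : (0 : ℝ) ≤ M * lam ^ 2 := by positivity
        calc ((W.filter (fun t => lam < x t)).card : ℝ) * lam ^ 2 ≤ M * lam ^ 2 := by gcongr
          _ ≤ 10 ^ 13 * M * lam ^ 2 := by nlinarith
      · have h1 := hprop v hv ((W.filter (fun t => v < x t)).image (fun t : ℕ => (t : ℤ))) (by
          intro t ht
          rw [Finset.mem_image] at ht
          obtain ⟨m, hm, rfl⟩ := ht
          rw [Finset.mem_filter] at hm
          refine ⟨Int.natCast_nonneg m, by exact_mod_cast hW m hm.1, ?_⟩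
          rw [hD]
          exact_mod_cast hm.2.le)
        rwa [Finset.card_image_of_injective _ Nat.cast_injective] at h1
    have h1 := sum_le_levels W x X lam hlam0 hlev
    have h2 : ‖∑ n ∈ A, ∑ t ∈ W, Complex.exp (Complex.I * (t : ℂ) * (Real.log (n : ℝ) : ℂ))‖ ≤
        ∑ t ∈ W, x t := by
      rw [Finset.sum_comm]
      refine (norm_sum_le _ _).trans (le_of_eq ?_)
      refine Finset.sum_congr rfl fun t _ => ?_
      rw [hx]
      dsimp only
      congr 1
      refine Finset.sum_congr rfl fun n _ => ?_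
      have := hkerI n (t : ℝ)
      push_cast at this ⊢
      exact this
    have h3 : 4 * X / lam = 4 * 10 ^ 13 * M * lam := by
      rw [hX]; field_simp
    have h4 : (M : ℝ) ≤ N := by exact_mod_cast (by omega : M ≤ N)
    have h5 : (N : ℝ) * lam = (N : ℝ) ^ (3 / 2 + ε) := by
      rw [hlam, ← Real.rpow_one_add' hN0.le (by positivity)]
      congr 1
      ring
    calc _ ≤ _ := h2
      _ ≤ W.card * lam + 4 * X / lam := h1
      _ = W.card * lam + 4 * 10 ^ 13 * M * lam := by rw [h3]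
      _ ≤ N * lam + 4 * 10 ^ 13 * N * lam := by gcongr
      _ = (1 + 4 * 10 ^ 13) * (N * lam) := by ring
      _ = (1 + 4 * 10 ^ 13) * (N : ℝ) ^ (3 / 2 + ε) := by rw [h5]
      _ ≤ (1 + 4 * 10 ^ 13 + ((max N₀ 45 : ℕ) : ℝ) ^ 2) * (N : ℝ) ^ (3 / 2 + ε) := by
          refine mul_le_mul_of_nonneg_right ?_ (by linarith)
          have : (0 : ℝ) ≤ ((max N₀ 45 : ℕ) : ℝ) ^ 2 := by positivity
          linarith

/-- **Montgomery's conjecture is equivalent to the statement that, for every `δ > 0` and all large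
`N`, there are at most `N/45` integers `t ∈ [0, N²]` with `|D(t)| > N^(1/2 + δ)`.** -/
theorem result : Montgomery ↔ FewLarge :=
  ⟨few_of_montgomery, fun H => PairsOfSets.montgomery_of_pairs (pairs_of_few H)⟩

end Pool.Agent.Results.MP_71ac24_nt.FewLargeValues
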