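import Mathlib
import Pool.Agent.Q201.ML.Sid2

/-!
# Dirichlet polynomials on sets with few coinciding differences

Q1 asks for `∑_{t ∈ S} |D(t)|² ≤ C N^ε (N + |S|) N` for all `1`-separated `S ⊂ [0,T]`, `T ≤ N²`,
`D(t) = ∑_{n ≤ N} a_n n^{it}`, `|a_n| ≤ 1`.  Here `T ≥ 1` and the complex coefficients `a_n`, `c_t`
are arbitrary.

* (Few coinciding differences.) If for every integer `m ≥ 1` at most `K` differences `t - s`,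
  `t, s ∈ S`, lie in `[m, m+1)` (for `K = 1`: a Sidon type set), then
  `∑_{n ≤ N} |∑_{t ∈ S} c_t n^{it}|⁴ ≤ C N^ε K (N + T) (∑ |c_t|²)²`, the analogue for the functions
  `n^{it}` on `{1, …, N}` of the theorem that Sidon sets are `Λ(4)` sets, and, dually,
  `∑_{t ∈ S} |D(t)|² ≤ C N^ε (K (N + T))^(1/2) (∑ |a_n|^(4/3))^(3/2)`.  For `|a_n| ≤ 1` this is
  `C N^(1+ε) (K N (N + T))^(1/2)`: the second moment has `N (N + T)` here, the fourth moment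
  `N² |S|^(1/2)`, the method of Halász and Montgomery `N (N + |S| T^(1/2))`; for `K ≤ N^ε` the new
  bound is the smallest one if `N ≤ T` and `T / N, N^(1/2) ≤ |S|`.
* (Small energy.) For an arbitrary `1`-separated `S ⊂ [0,T]` with approximate additive energy `E`
  and `|c_t| ≤ 1`: `∑_{n ≤ N} |∑_{t ∈ S} c_t n^{it}|⁴ ≤ C N^ε (N + T) E` and
  `(∑_{t ∈ S} |D(t)|)⁴ ≤ C N^ε (N + T) E (∑ |a_n|^(4/3))³`.
* (The squares.) `∑_{m ≤ M} |D(m²)|² ≤ C (N M)^ε (N + M²)^(1/2) (∑ |a_n|^(4/3))^(3/2)`.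
-/

set_option autoImplicit false

namespace Pool.Agent.Results.MP_71ac24_nt.SidonTypeSets

open Complex Finset

/-- `D(t) = ∑_{n ≤ N} a n n^{it}` -/
noncomputable def D (N : ℕ) (a : ℕ → ℂ) (t : ℝ) : ℂ :=
  ∑ n ∈ Icc 1 N, a n * Complex.exp (((t * Real.log n : ℝ) : ℂ) * I)

/-- The number of quadruples `(a, b, c, d)` of elements of `S` with `|a - b + c - d| ≤ 1`. -/
noncomputable def energy (S : Finset ℝ) : ℕ :=
  ((S ×ˢ S ×ˢ S ×ˢ S).filter fun q => |q.1 - q.2.1 + q.2.2.1 - q.2.2.2| ≤ 1).card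

open Pool.Agent.Q201.ML.Sid in
theorem core (ε : ℝ) (hε : 0 < ε) : ∃ C : ℝ, 1 ≤ C ∧ ∀ (N : ℕ) (T : ℝ), 1 ≤ N → 1 ≤ T →
    ∀ S : Finset ℝ, (∀ t ∈ S, 0 ≤ t ∧ t ≤ T) → (∀ t ∈ S, ∀ s ∈ S, t ≠ s → 1 ≤ |t - s|) →
    (∀ K : ℕ, 1 ≤ K →
      (∀ m : ℕ, 1 ≤ m → ((S ×ˢ S).filter fun p : ℝ × ℝ => (m : ℝ) ≤ p.1 - p.2 ∧
        p.1 - p.2 < (m : ℝ) + 1).card ≤ K) →
      (∀ c : ℝ → ℂ, ∑ n ∈ Icc 1 N, ‖∑ t ∈ S, c t * Complex.exp (((t * Real.log n : ℝ) : ℂ) * I)‖ ^ 4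
        ≤ C * (N : ℝ) ^ ε * K * (N + T) * (∑ t ∈ S, ‖c t‖ ^ 2) ^ 2) ∧
      ∀ a : ℕ → ℂ, (∑ t ∈ S, ‖D N a t‖ ^ 2) ^ 2 ≤
        C * (N : ℝ) ^ ε * K * (N + T) * (∑ n ∈ Icc 1 N, ‖a n‖ ^ ((4 : ℝ) / 3)) ^ 3) ∧
    (∀ c : ℝ → ℂ, (∀ t, ‖c t‖ ≤ 1) →
      ∑ n ∈ Icc 1 N, ‖∑ t ∈ S, c t * Complex.exp (((t * Real.log n : ℝ) : ℂ) * I)‖ ^ 4
        ≤ C * (N : ℝ) ^ ε * (N + T) * energy S) ∧
    ∀ a : ℕ → ℂ, (∑ t ∈ S, ‖D N a t‖) ^ 4 ≤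
      C * (N : ℝ) ^ ε * (N + T) * energy S * (∑ n ∈ Icc 1 N, ‖a n‖ ^ ((4 : ℝ) / 3)) ^ 3 := by
  obtain ⟨C, hC, hL⟩ := LL_le ε hε
  refine ⟨6 * C, by linarith, ?_⟩
  intro N T hN hT S hS hsep
  have hN' : (1 : ℝ) ≤ N := by exact_mod_cast hN
  have h1 : 1 ≤ (N : ℝ) ^ ε := Real.one_le_rpow hN' hε.le
  have hLL := hL N T hN hT
  have hLL0 := LL_nonneg N (⌊T⌋₊ + 1)
  have hNC : (N : ℝ) ≤ C * (N : ℝ) ^ ε * (N + T) := by
    have h2 : 1 ≤ C * (N : ℝ) ^ ε := by nlinarith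
    nlinarith
  set W := C * (N : ℝ) ^ ε * (N + T) with hW
  have hW0 : 0 ≤ W := by linarith
  refine ⟨?_, ?_, ?_⟩
  · intro K hK1 hK
    have hK' : (1 : ℝ) ≤ K := by exact_mod_cast hK1
    have hm := mult_two S hsep K hK
    have hnum : 2 * ((N : ℝ) + ((2 * K : ℕ) : ℝ) * LL N (⌊T⌋₊ + 1)) ≤
        6 * C * (N : ℝ) ^ ε * K * (N + T) := by
      have e1 : 6 * C * (N : ℝ) ^ ε * K * (N + T) = 6 * K * W := by rw [hW]; ring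
      rw [e1]
      push_cast
      have h3 : 2 * (K : ℝ) * LL N (⌊T⌋₊ + 1) ≤ 2 * K * W := by gcongr
      nlinarith
    constructor
    · intro c
      have h := X4_mult N T S hS (2 * K) hm c
      unfold X4 Fs at h
      calc _ ≤ _ := h
        _ = (2 * ((N : ℝ) + ((2 * K : ℕ) : ℝ) * LL N (⌊T⌋₊ + 1))) * (∑ t ∈ S, ‖c t‖ ^ 2) ^ 2 := by
            ring
        _ ≤ _ := by gcongr
    · intro a
      have h := mean_mult N T S hS (2 * K) hm a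
      have hB : 0 ≤ ∑ n ∈ Icc 1 N, ‖a n‖ ^ ((4 : ℝ) / 3) := B43_nonneg N a
      calc (∑ t ∈ S, ‖D N a t‖ ^ 2) ^ 2 ≤
            2 * ((N : ℝ) + ((2 * K : ℕ) : ℝ) * LL N (⌊T⌋₊ + 1)) * B43 N a ^ 3 := h
        _ ≤ _ := by
            unfold B43
            gcongr
  · intro c hc
    have h := X4_energy N T S hS c hc
    unfold X4 Fs at h
    have e2 : (R2 S : ℝ) ≤ 2 * energy S := by exact_mod_cast R2_le_energy S
    have e3 : (S.card : ℝ) ^ 2 ≤ energy S := by exact_mod_cast sq_card_le_energy S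
    calc _ ≤ _ := h
      _ ≤ 2 * ((energy S : ℝ) * W + 2 * energy S * W) := by gcongr
      _ = _ := by rw [hW]; ring
  · intro a
    have h := mean_energy N T S hS a
    have e2 : (R2 S : ℝ) ≤ 2 * energy S := by exact_mod_cast R2_le_energy S
    have e3 : (S.card : ℝ) ^ 2 ≤ energy S := by exact_mod_cast sq_card_le_energy S
    have hB : 0 ≤ ∑ n ∈ Icc 1 N, ‖a n‖ ^ ((4 : ℝ) / 3) := B43_nonneg N a
    calc (∑ t ∈ S, ‖D N a t‖) ^ 4 ≤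
          2 * ((S.card : ℝ) ^ 2 * N + R2 S * LL N (⌊T⌋₊ + 1)) * B43 N a ^ 3 := h
      _ ≤ 2 * ((energy S : ℝ) * W + 2 * energy S * W) * B43 N a ^ 3 := by
          unfold B43
          gcongr
      _ = _ := by rw [hW]; unfold B43; ring

open Pool.Agent.Q201.ML.Sid in
theorem result :
    -- sets with few coinciding differences, and sets of small energy
    (∀ ε : ℝ, 0 < ε → ∃ C : ℝ, 1 ≤ C ∧ ∀ (N : ℕ) (T : ℝ), 1 ≤ N → 1 ≤ T →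
      ∀ S : Finset ℝ, (∀ t ∈ S, 0 ≤ t ∧ t ≤ T) → (∀ t ∈ S, ∀ s ∈ S, t ≠ s → 1 ≤ |t - s|) →
      (∀ K : ℕ, 1 ≤ K →
        (∀ m : ℕ, 1 ≤ m → ((S ×ˢ S).filter fun p : ℝ × ℝ => (m : ℝ) ≤ p.1 - p.2 ∧
          p.1 - p.2 < (m : ℝ) + 1).card ≤ K) →
        (∀ c : ℝ → ℂ,
          ∑ n ∈ Icc 1 N, ‖∑ t ∈ S, c t * Complex.exp (((t * Real.log n : ℝ) : ℂ) * I)‖ ^ 4
            ≤ C * (N : ℝ) ^ ε * K * (N + T) * (∑ t ∈ S, ‖c t‖ ^ 2) ^ 2) ∧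
        ∀ a : ℕ → ℂ, (∑ t ∈ S, ‖D N a t‖ ^ 2) ^ 2 ≤
          C * (N : ℝ) ^ ε * K * (N + T) * (∑ n ∈ Icc 1 N, ‖a n‖ ^ ((4 : ℝ) / 3)) ^ 3) ∧
      (∀ c : ℝ → ℂ, (∀ t, ‖c t‖ ≤ 1) →
        ∑ n ∈ Icc 1 N, ‖∑ t ∈ S, c t * Complex.exp (((t * Real.log n : ℝ) : ℂ) * I)‖ ^ 4
          ≤ C * (N : ℝ) ^ ε * (N + T) * energy S) ∧
      ∀ a : ℕ → ℂ, (∑ t ∈ S, ‖D N a t‖) ^ 4 ≤
        C * (N : ℝ) ^ ε * (N + T) * energy S * (∑ n ∈ Icc 1 N, ‖a n‖ ^ ((4 : ℝ) / 3)) ^ 3) ∧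
    -- the squares
    (∀ ε : ℝ, 0 < ε → ∃ C : ℝ, 1 ≤ C ∧ ∀ (N M : ℕ), 1 ≤ N → 1 ≤ M → ∀ a : ℕ → ℂ,
      (∑ m ∈ Icc 1 M, ‖D N a ((m : ℝ) ^ 2)‖ ^ 2) ^ 2 ≤
        C * ((N : ℝ) * M) ^ ε * (N + (M : ℝ) ^ 2) *
          (∑ n ∈ Icc 1 N, ‖a n‖ ^ ((4 : ℝ) / 3)) ^ 3) := by
  refine ⟨core, ?_⟩
  intro ε hε
  obtain ⟨C, hC, h⟩ := core ε hε
  obtain ⟨C', hC'0, hd⟩ := Pool.Agent.H510R2.divisor_bound (ε / 4) (by positivity)
  refine ⟨C * (C' + 1), by nlinarith, ?_⟩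
  intro N M hN hM a
  have hN' : (1 : ℝ) ≤ N := by exact_mod_cast hN
  have hM' : (1 : ℝ) ≤ M := by exact_mod_cast hM
  have hMe : 1 ≤ (M : ℝ) ^ (ε / 2) := Real.one_le_rpow hM' (by positivity)
  set K : ℕ := ⌈C' * (M : ℝ) ^ (ε / 2)⌉₊ + 0 with hK
  have hKpos : 1 ≤ K := by
    rw [hK, add_zero]
    apply Nat.one_le_iff_ne_zero.2
    rw [Ne, Nat.ceil_eq_zero, not_le]
    positivity
  have hKle : (K : ℝ) ≤ (C' + 1) * (M : ℝ) ^ ε := by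
    have h1 := Nat.ceil_lt_add_one (a := C' * (M : ℝ) ^ (ε / 2)) (by positivity)
    have h2 : (M : ℝ) ^ (ε / 2) ≤ (M : ℝ) ^ ε :=
      Real.rpow_le_rpow_of_exponent_le hM' (by linarith)
    rw [hK, add_zero]
    nlinarith
  have hT : (1 : ℝ) ≤ (M : ℝ) ^ 2 := by nlinarith
  have hS : ∀ t ∈ sqs M, 0 ≤ t ∧ t ≤ (M : ℝ) ^ 2 := by
    intro t ht
    obtain ⟨m, hm, rfl⟩ := mem_image.1 ht
    rw [mem_Icc] at hm
    constructor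
    · positivity
    · have : (m : ℝ) ≤ M := by exact_mod_cast hm.2
      push_cast
      gcongr
  have hmul : ∀ m : ℕ, 1 ≤ m → ((sqs M ×ˢ sqs M).filter fun p : ℝ × ℝ => (m : ℝ) ≤ p.1 - p.2 ∧
      p.1 - p.2 < (m : ℝ) + 1).card ≤ K := by
    intro m hm
    rcases le_or_gt m (M ^ 2) with hmM | hmM
    · have h1 := sqs_mult M m hm
      have h2 : (m.divisors.card : ℝ) ≤ C' * (M : ℝ) ^ (ε / 2) := by
        refine (hd m hm).trans ?_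
        apply mul_le_mul_of_nonneg_left _ hC'0.le
        have h3 : (m : ℝ) ≤ (M : ℝ) ^ 2 := by exact_mod_cast hmM
        calc (m : ℝ) ^ (ε / 4) ≤ ((M : ℝ) ^ 2) ^ (ε / 4) :=
              Real.rpow_le_rpow (Nat.cast_nonneg _) h3 (by positivity)
          _ = (M : ℝ) ^ (ε / 2) := by
              rw [← Real.rpow_natCast, ← Real.rpow_mul (by linarith)]
              congr 1
              push_cast
              ring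
      have h4 : m.divisors.card ≤ K := by
        rw [hK, add_zero]
        exact_mod_cast h2.trans (Nat.le_ceil _)
      exact le_trans (by convert h1) h4
    · have : ((sqs M ×ˢ sqs M).filter fun p : ℝ × ℝ => (m : ℝ) ≤ p.1 - p.2 ∧
          p.1 - p.2 < (m : ℝ) + 1) = ∅ := by
        rw [filter_eq_empty_iff]
        rintro p hp ⟨h1, -⟩
        rw [mem_product] at hp
        have h2 := hS _ hp.1
        have h3 := hS _ hp.2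
        have h4 : ((M ^ 2 : ℕ) : ℝ) < m := by exact_mod_cast hmM
        push_cast at h4
        linarith
      rw [this]
      simp
  have h5 := ((h N ((M : ℝ) ^ 2) hN hT (sqs M) hS (sqs_sep M)).1 K hKpos hmul).2 a
  have e1 : ∑ t ∈ sqs M, ‖D N a t‖ ^ 2 = ∑ m ∈ Icc 1 M, ‖D N a ((m : ℝ) ^ 2)‖ ^ 2 := by
    unfold sqs
    rw [sum_image (fun x _ y _ hxy => sqs_inj hxy)]
    refine sum_congr rfl fun m _ => ?_
    push_cast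
    rfl
  rw [e1] at h5
  have hB : 0 ≤ ∑ n ∈ Icc 1 N, ‖a n‖ ^ ((4 : ℝ) / 3) := B43_nonneg N a
  calc _ ≤ _ := h5
    _ ≤ C * (N : ℝ) ^ ε * ((C' + 1) * (M : ℝ) ^ ε) * (N + (M : ℝ) ^ 2) *
          (∑ n ∈ Icc 1 N, ‖a n‖ ^ ((4 : ℝ) / 3)) ^ 3 := by
        gcongr
    _ = _ := by
        rw [Real.mul_rpow (Nat.cast_nonneg _) (Nat.cast_nonneg _)]
        ring

end Pool.Agent.Results.MP_71ac24_nt.SidonTypeSets
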