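import Pool.Agent.TH961.AP.GenR2

set_option autoImplicit false

/-!
# Montgomery's mean square inequality for generic dilates of sets with a small difference set

`A` is a finite set of real numbers such that the difference set `A - A` is `1`-separated and has at
most `K |A|` elements (for instance an arithmetic progression, a generalised arithmetic progression of
bounded dimension, or any set of integers of small doubling).  For all `x ∈ [Λ, 2Λ]` outside one set of
measure at most `ηΛ` the inequality of Q1 holds for the dilate `x A`, for all coefficients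
`|a_n| ≤ 1` and for all translates `v + x A`, simultaneously, with `K² + (9 K/η) log log` in place of
`C N^ε`:

`∑_{t ∈ A} |D(v + x t)|² ≤ K² N |A| + (9 K/η) N² (1 + log (K |A|)) (1 + log N)`.
-/

namespace Pool.Agent.Results.MP_71ac24_nt.SmallDifferenceSets

open Finset MeasureTheory Pool.Agent.TH961.AP
open scoped Pointwise

/-- The double sum over the differences of the difference set `B = A - A` contains every shifted
term `t - a₀` of the sum over `A` at least `|A|` times. -/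
theorem popularR (A : Finset ℝ) (a₀ : ℝ) (ha₀ : a₀ ∈ A) (f : ℝ → ℝ) (hf : ∀ x, 0 ≤ f x) :
    A.card * ∑ s ∈ A, f (s - a₀) ≤ ∑ t ∈ A - A, ∑ u ∈ A - A, f (t - u) := by
  classical
  rw [← nsmul_eq_mul, ← sum_const, ← sum_product' , ← sum_product']
  have hinj : Set.InjOn (fun p : ℝ × ℝ => (p.2 - p.1, a₀ - p.1)) (A ×ˢ A : Finset (ℝ × ℝ)) := by
    intro p _ q _ h
    simp only [Prod.mk.injEq] at h
    have h1 : p.1 = q.1 := by linarith [h.2]
    have h2 : p.2 = q.2 := by linarith [h.1]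
    exact Prod.ext h1 h2
  calc ∑ p ∈ A ×ˢ A, f (p.2 - a₀)
      = ∑ p ∈ A ×ˢ A, (fun q : ℝ × ℝ => f (q.1 - q.2)) (p.2 - p.1, a₀ - p.1) := by
        apply sum_congr rfl
        intro p _
        simp only
        congr 1
        ring
    _ = ∑ q ∈ (A ×ˢ A).image (fun p : ℝ × ℝ => (p.2 - p.1, a₀ - p.1)), f (q.1 - q.2) := by
        rw [sum_image hinj]
    _ ≤ _ := by
        apply sum_le_sum_of_subset_of_nonneg
        · intro q hq
          rw [mem_image] at hq
          obtain ⟨p, hp, rfl⟩ := hq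
          rw [mem_product] at hp
          exact mem_product.2 ⟨sub_mem_sub hp.2 hp.1, sub_mem_sub ha₀ hp.1⟩
        · intro q _ _
          exact hf _

theorem DP_eq (N : ℕ) (a : ℕ → ℂ) (t : ℝ) :
    ∑ n ∈ Icc 1 N, a n * (n : ℂ) ^ ((t : ℂ) * Complex.I) = DP N a (-t) := by
  unfold DP
  apply sum_congr rfl
  intro n _
  congr 2
  push_cast
  ring

/-- **Main theorem.** -/
theorem result (N : ℕ) (hN : 1 ≤ N) (A : Finset ℝ) (K : ℝ) (hKn : 0 ≤ K)
    (hsep : ∀ s ∈ A - A, ∀ t ∈ A - A, s ≠ t → 1 ≤ |s - t|)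
    (hK : ((A - A).card : ℝ) ≤ K * A.card) (Λ η : ℝ) (hΛ : 1 ≤ Λ) (hη : 0 < η) :
    ∃ E : Set ℝ, MeasurableSet E ∧ volume E ≤ ENNReal.ofReal (η * Λ) ∧
      ∀ x ∈ Set.Icc Λ (2 * Λ), x ∉ E → ∀ (a : ℕ → ℂ) (v : ℝ), (∀ n, ‖a n‖ ≤ 1) →
        ∑ t ∈ A, ‖∑ n ∈ Finset.Icc 1 N,
            a n * (n : ℂ) ^ (((v + x * t : ℝ) : ℂ) * Complex.I)‖ ^ 2 ≤
          K ^ 2 * N * A.card + 9 * K / η * (N : ℝ) ^ 2 * (1 + Real.log (K * A.card)) *
            (1 + Real.log N) := by
  classical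
  obtain ⟨E, hE1, hE2, hE3⟩ := self_translates N hN (A - A) hsep Λ η hΛ hη
  refine ⟨E, hE1, hE2, ?_⟩
  intro x hx hxE a v ha
  rcases A.eq_empty_or_nonempty with hA | hA
  · subst hA
    have hl : 0 ≤ Real.log N := Real.log_natCast_nonneg N
    simp only [sum_empty, card_empty, Nat.cast_zero, mul_zero, Real.log_zero, add_zero, mul_one,
      zero_add]
    positivity
  obtain ⟨a₀, ha₀⟩ := hA
  have hA0 : (0 : ℝ) < A.card := by exact_mod_cast card_pos.2 ⟨a₀, ha₀⟩
  have hB0 : (0 : ℝ) < (A - A).card := by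
    exact_mod_cast card_pos.2 ⟨a₀ - a₀, sub_mem_sub ha₀ ha₀⟩
  have hK0 : 0 < K := by
    by_contra h
    have : K * A.card ≤ 0 := mul_nonpos_of_nonpos_of_nonneg (not_lt.1 h) hA0.le
    linarith
  have hNr : (1:ℝ) ≤ N := by exact_mod_cast hN
  have hlN : 0 ≤ Real.log N := Real.log_nonneg hNr
  have hB1 : (1 : ℝ) ≤ (A - A).card := by exact_mod_cast card_pos.2 ⟨a₀ - a₀, sub_mem_sub ha₀ ha₀⟩
  have h1 := hE3 x hx hxE a (-(v + x * a₀)) ha
  have h2 := popularR A a₀ ha₀ (fun y => ‖DP N a (-(v + x * a₀) - x * y)‖ ^ 2)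
    (fun _ => sq_nonneg _)
  have h3 : ∑ t ∈ A - A, ∑ u ∈ A - A, ‖DP N a (-(v + x * a₀) - x * (t - u))‖ ^ 2 =
      ∑ t ∈ A - A, ∑ u ∈ A - A, ‖DP N a (-(v + x * a₀) + x * (t - u))‖ ^ 2 := by
    rw [sum_comm]
    apply sum_congr rfl
    intro t _
    apply sum_congr rfl
    intro u _
    congr 3
    ring
  have h4 : ∑ s ∈ A, ‖DP N a (-(v + x * a₀) - x * (s - a₀))‖ ^ 2 =
      ∑ t ∈ A, ‖∑ n ∈ Finset.Icc 1 N,
            a n * (n : ℂ) ^ (((v + x * t : ℝ) : ℂ) * Complex.I)‖ ^ 2 := by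
    apply sum_congr rfl
    intro t _
    rw [DP_eq]
    congr 3
    ring
  rw [h3, h4] at h2
  have hlog : Real.log (A - A).card ≤ Real.log (K * A.card) := Real.log_le_log hB0 hK
  have hlB : 0 ≤ Real.log (A - A).card := Real.log_nonneg hB1
  have h5 : N * ((A - A).card : ℝ) ^ 2 + 9 / η * (N:ℝ) ^ 2 * (A - A).card *
      (1 + Real.log (A - A).card) * (1 + Real.log N) ≤
      A.card * (K ^ 2 * N * A.card + 9 * K / η * (N : ℝ) ^ 2 * (1 + Real.log (K * A.card)) *
            (1 + Real.log N)) := by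
    have e1 : N * ((A - A).card : ℝ) ^ 2 ≤ N * (K * A.card) ^ 2 := by gcongr
    have e2 : 9 / η * (N:ℝ) ^ 2 * (A - A).card * (1 + Real.log (A - A).card) * (1 + Real.log N) ≤
        9 / η * (N:ℝ) ^ 2 * (K * A.card) * (1 + Real.log (K * A.card)) * (1 + Real.log N) := by
      gcongr
    calc _ ≤ N * (K * A.card) ^ 2 + 9 / η * (N:ℝ) ^ 2 * (K * A.card) *
          (1 + Real.log (K * A.card)) * (1 + Real.log N) := add_le_add e1 e2
      _ = _ := by ring
  exact le_of_mul_le_mul_left (h2.trans (h1.trans h5)) hA0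

end Pool.Agent.Results.MP_71ac24_nt.SmallDifferenceSets
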